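import Pool.Agent.H45.EG3.S1
import Pool.Agent.H29.EGH.HGA

/-!
# EG3: ANC, the ancestor ideal
-/

set_option autoImplicit false

namespace Pool.EG3

open MvPolynomial Pool.EGH

namespace An

variable {K : Type} [Field K]

/-- The components of a product. -/
theorem hc_prod {N : ℕ} (a p : PR K N) (u : ℕ) : homogeneousComponent u (a * p) =
    ∑ j ∈ Finset.range (u + 1), homogeneousComponent j a * homogeneousComponent (u - j) p := by
  have h1 : a * p = ∑ j ∈ Finset.range (a.totalDegree + 1), homogeneousComponent j a * p := by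
    rw [← Finset.sum_mul, sum_homogeneousComponent]
  have hcm : ∀ k, homogeneousComponent k a ∈ fm K N k := fun k =>
    (mem_homogeneousSubmodule k _).2 (homogeneousComponent_isHomogeneous k a)
  have h2 : ∀ j, homogeneousComponent u (homogeneousComponent j a * p) =
      if j ≤ u then homogeneousComponent j a * homogeneousComponent (u - j) p else 0 := by
    intro j
    split_ifs with h
    · obtain ⟨e, rfl⟩ := Nat.exists_eq_add_of_le h
      rw [HGA.hc_mul (hcm j) p e, Nat.add_sub_cancel_left]
    · exact HGA.hc_mul_lt (hcm j) p (by omega)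
  rw [h1, map_sum, Finset.sum_congr rfl fun j _ => h2 j]
  -- both sums over a large range
  obtain ⟨M, hM1, hM2⟩ : ∃ M, a.totalDegree + 1 ≤ M ∧ u + 1 ≤ M :=
    ⟨max (a.totalDegree + 1) (u + 1), le_max_left _ _, le_max_right _ _⟩
  have e1 : ∑ j ∈ Finset.range (a.totalDegree + 1),
      (if j ≤ u then homogeneousComponent j a * homogeneousComponent (u - j) p else 0) =
      ∑ j ∈ Finset.range M,
      (if j ≤ u then homogeneousComponent j a * homogeneousComponent (u - j) p else 0) := by
    refine Finset.sum_subset (fun j hj => ?_) fun j _ hj => ?_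
    · rw [Finset.mem_range] at hj ⊢
      omega
    · rw [Finset.mem_range] at hj
      rw [homogeneousComponent_eq_zero j a (by omega), zero_mul, ite_self]
  have e2 : ∑ j ∈ Finset.range (u + 1),
      homogeneousComponent j a * homogeneousComponent (u - j) p =
      ∑ j ∈ Finset.range M,
      (if j ≤ u then homogeneousComponent j a * homogeneousComponent (u - j) p else 0) := by
    have e3 : ∑ j ∈ Finset.range (u + 1),
      homogeneousComponent j a * homogeneousComponent (u - j) p =
      ∑ j ∈ Finset.range (u + 1),
      (if j ≤ u then homogeneousComponent j a * homogeneousComponent (u - j) p else 0) := by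
      refine Finset.sum_congr rfl fun j hj => ?_
      rw [Finset.mem_range] at hj
      rw [if_pos (by omega)]
    rw [e3]
    refine Finset.sum_subset (fun j hj => ?_) fun j _ hj => ?_
    · rw [Finset.mem_range] at hj ⊢
      omega
    · rw [Finset.mem_range] at hj
      rw [if_neg (by omega)]
  rw [e1, e2]

/-- The ancestor ideal. -/
noncomputable def anc (J : Ideal (PR K 3)) (t : ℕ) : Ideal (PR K 3) where
  carrier := {p | ∀ u ≤ t + 1, ∀ G ∈ fm K 3 (t + 1 - u), G * homogeneousComponent u p ∈ J}
  add_mem' := by
    intro p q hp hq u hu G hG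
    rw [map_add, mul_add]
    exact J.add_mem (hp u hu G hG) (hq u hu G hG)
  zero_mem' := by
    intro u _ G _
    rw [map_zero, mul_zero]
    exact J.zero_mem
  smul_mem' := by
    intro a p hp u hu G hG
    rw [smul_eq_mul, hc_prod, Finset.mul_sum]
    refine Ideal.sum_mem _ fun j hj => ?_
    rw [Finset.mem_range] at hj
    rw [← mul_assoc]
    refine hp (u - j) (by omega) _ ?_
    have h1 : homogeneousComponent j a ∈ fm K 3 j :=
      (mem_homogeneousSubmodule j _).2 (homogeneousComponent_isHomogeneous j a)
    have h2 : G * homogeneousComponent j a ∈ fm K 3 (t + 1 - u + j) :=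
      (mem_homogeneousSubmodule _ _).2
        (((mem_homogeneousSubmodule _ _).1 hG).mul ((mem_homogeneousSubmodule _ _).1 h1))
    rwa [show t + 1 - u + j = t + 1 - (u - j) by omega] at h2

theorem mem_anc {J : Ideal (PR K 3)} {t : ℕ} {p : PR K 3} : p ∈ anc J t ↔
    ∀ u ≤ t + 1, ∀ G ∈ fm K 3 (t + 1 - u), G * homogeneousComponent u p ∈ J := Iff.rfl

theorem mem_anc_of {J : Ideal (PR K 3)} {t u : ℕ} {F : PR K 3} (hF : F ∈ fm K 3 u)
    (hu : u ≤ t + 1) : F ∈ anc J t ↔ ∀ G ∈ fm K 3 (t + 1 - u), G * F ∈ J := by
  rw [mem_anc]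
  constructor
  · intro h G hG
    have h1 := h u hu G hG
    rwa [homogeneousComponent_of_mem hF, if_pos rfl] at h1
  · intro h u' hu' G hG
    rw [homogeneousComponent_of_mem hF]
    split_ifs with h1
    · subst h1
      exact h G hG
    · rw [mul_zero]
      exact J.zero_mem

theorem hg_anc (J : Ideal (PR K 3)) (t : ℕ) : Hg (anc J t) := by
  intro p hp d u hu G hG
  rw [homogeneousComponent_of_mem ((mem_homogeneousSubmodule d _).2
    (homogeneousComponent_isHomogeneous d p))]
  split_ifs with h
  · subst h
    exact hp _ hu G hG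
  · rw [mul_zero]
    exact J.zero_mem

/-- A form of degree `n + 1` is a combination of the variables. -/
theorem form_succ {N n : ℕ} {G : PR K N} (hG : G ∈ fm K N (n + 1)) :
    G ∈ (fm K N 1) * (fm K N n) := by
  have h1 : fm K N (n + 1) = fm K N 1 * fm K N n := by
    unfold fm
    rw [← homogeneousSubmodule_one_pow (σ := Fin N) (R := K) (n + 1),
      ← homogeneousSubmodule_one_pow (σ := Fin N) (R := K) n, pow_succ']
  rw [← h1]
  exact hG

end An

open An in
/-- ANC. -/
theorem t_anc : ANCStmt := by
  intro K _ J t hJ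
  refine ⟨anc J t, hg_anc J t, ?_, ?_, ?_⟩
  · intro p hp u _ G _
    exact J.mul_mem_left _ (hJ p hp u)
  · intro u hu F hF h
    rw [mem_anc_of hF (by omega)]
    intro G hG
    obtain ⟨n, hn⟩ : ∃ n, t + 1 - u = n + 1 := ⟨t - u, by omega⟩
    rw [hn] at hG
    have h1 := form_succ hG
    refine Submodule.mul_induction_on h1 ?_ ?_
    · intro l hl G' hG'
      have h2 := h l hl
      have hlF : l * F ∈ fm K 3 (u + 1) := by
        rw [add_comm]
        exact (mem_homogeneousSubmodule _ _).2
          (((mem_homogeneousSubmodule _ _).1 hl).mul ((mem_homogeneousSubmodule _ _).1 hF))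
      rw [mem_anc_of hlF (by omega)] at h2
      have h3 := h2 G' (by rwa [show t + 1 - (u + 1) = n by omega])
      have h4 : l * G' * F = G' * (l * F) := by ring
      rwa [h4]
    · intro x y hx hy
      rw [add_mul]
      exact J.add_mem hx hy
  · have h1 : (anc J t).restrictScalars K ⊓ fm K 3 (t + 1) = J.restrictScalars K ⊓ fm K 3 (t + 1) := by
      ext F
      constructor
      · rintro ⟨h2, h3⟩
        refine ⟨?_, h3⟩
        have h4 := (mem_anc_of h3 le_rfl).1 h2 1 (by
          rw [Nat.sub_self]
          exact (mem_homogeneousSubmodule 0 _).2 (isHomogeneous_one _ _))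
        rwa [one_mul] at h4
      · rintro ⟨h2, h3⟩
        refine ⟨?_, h3⟩
        exact (mem_anc_of h3 le_rfl).2 fun G _ => J.mul_mem_left _ h2
    unfold hf
    rw [h1]

end Pool.EG3
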