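import Pool.Agent.H45.EG3.S1
import Pool.Agent.H24.EGH.UPI
import Pool.Agent.H34.EGH.IMG
import Pool.Agent.H85.EGH.GPD
import Pool.Agent.H50.EGH.COL
import Pool.Agent.H45.EGH.GPM

/-!
# EG3: adjoining a space of forms to an ideal
-/

set_option autoImplicit false

namespace Pool.EG3.Aj

open MvPolynomial Pool.EGH

variable {K : Type} [Field K] {N : ℕ}

instance fin_fm (i : ℕ) : Module.Finite K ↥(fm K N i) :=
  Module.Finite.iff_fg.mpr (homogeneousSubmodule_fg (Fin N) K i)

theorem fin_gp (J : Ideal (PR K N)) (i : ℕ) : Module.Finite K ↥(gp J i) := (t_gpm K N J).1 i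

theorem gp_dim (J : Ideal (PR K N)) (i : ℕ) : Module.finrank K ↥(gp J i) = hf J i :=
  GPDh.dim J i

/-- Comparison of the Hilbert functions. -/
theorem im_dim {Q I : Ideal (PR K N)} (hle : Q ≤ I) (i : ℕ) :
    Module.finrank K ↥(im Q I i) + hf I i = hf Q i := by
  have hfI : Module.Finite K ↥(I.restrictScalars K ⊓ fm K N i) :=
    Submodule.finiteDimensional_inf_right _ _
  have hfQ : Module.Finite K ↥(Q.restrictScalars K ⊓ fm K N i) :=
    Submodule.finiteDimensional_inf_right _ _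
  have h1 := IMG.rn (Ideal.Quotient.mkₐ K Q).toLinearMap (I.restrictScalars K ⊓ fm K N i)
  have h2 := IMG.rn (Ideal.Quotient.mkₐ K Q).toLinearMap (fm K N i)
  rw [IMG.ker_mk] at h1 h2
  have e1 : I.restrictScalars K ⊓ fm K N i ⊓ Q.restrictScalars K =
      fm K N i ⊓ Q.restrictScalars K := by
    apply le_antisymm
    · exact le_inf (inf_le_left.trans inf_le_right) inf_le_right
    · refine le_inf (le_inf (inf_le_right.trans ?_) inf_le_left) inf_le_right
      exact fun x hx => hle hx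
  rw [e1] at h1
  have h3 := gp_dim Q i
  have h4 : Module.finrank K ↥(I.restrictScalars K ⊓ fm K N i) ≤
      Module.finrank K ↥(fm K N i) := Submodule.finrank_mono inf_le_right
  unfold im hf
  unfold gp hf at h3
  omega

/-- **Adjoining a space of forms.** -/
theorem adj {J : Ideal (PR K N)} (hJ : Hg J) {t : ℕ} {V : Submodule K (PR K N ⧸ J)}
    (hV : V ≤ gp J t) : ∃ J' : Ideal (PR K N), Hg J' ∧ J ≤ J' ∧
      hf J' t + Module.finrank K V = hf J t ∧
      hf J' (t + 1) + Module.finrank K ↥(gp J 1 * V) = hf J (t + 1) := by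
  have h2 : J ≤ upI J V := by
    intro f hf
    change Ideal.Quotient.mk J f ∈ Ideal.span (V : Set (PR K N ⧸ J))
    rw [Ideal.Quotient.eq_zero_iff_mem.2 hf]
    exact zero_mem _
  have h6 := Upi24.im_upI t_gpm hJ hV 0
  have h7 := Upi24.im_upI t_gpm hJ hV 1
  rw [add_zero, (t_gpm K N J).2.2.1 V] at h6
  have h8 := im_dim h2 t
  have h9 := im_dim h2 (t + 1)
  rw [h6] at h8
  rw [h7] at h9
  exact ⟨upI J V, Upi24.hg_upI t_gpm hJ hV, h2, by omega, by omega⟩

/-- The multiplication by a linear form. -/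
noncomputable def mll (J : Ideal (PR K N)) (l : PR K N) (hl : l ∈ fm K N 1) (t : ℕ) :
    ↥(gp J t) →ₗ[K] ↥(gp J (t + 1)) where
  toFun v := ⟨Ideal.Quotient.mk J l * v, by
    obtain ⟨F, hF, h⟩ := v.2
    have h1 : (v : PR K N ⧸ J) = Ideal.Quotient.mk J F := h.symm
    rw [h1, ← map_mul, add_comm]
    exact (t_gpm K N J).2.2.2 (1 + t) _ (((mem_homogeneousSubmodule _ _).2
      (((mem_homogeneousSubmodule _ _).1 hl).mul ((mem_homogeneousSubmodule _ _).1 hF))))⟩
  map_add' v w := by
    apply Subtype.ext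
    simp [mul_add]
  map_smul' c v := by
    apply Subtype.ext
    exact mul_smul_comm c _ _

theorem mll_apply (J : Ideal (PR K N)) (l : PR K N) (hl : l ∈ fm K N 1) (t : ℕ) (v : ↥(gp J t)) :
    (mll J l hl t v : PR K N ⧸ J) = Ideal.Quotient.mk J l * v := rfl

end Pool.EG3.Aj
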