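import Pool.Agent.H45.EG3.S2

/-!
# EG3: CHA, the lemma of Cayley and Hamilton for vector spaces
-/

set_option autoImplicit false

namespace Pool.EG3

open MvPolynomial Pool.EGH

/-- CHA. -/
theorem t_cha (hCMB : CMBStmt) (hCMC : CMCStmt) (hCMD : CMDStmt) (hCME : CMEStmt)
    (hCMF : CMFStmt) : CHAStmt := by
  intro K _ _ V M N _ _ _ _ _ _ _ _ x y z x' y' z' i hxy hxz hyz hPJ hsur hex hdim
  classical
  have hinf : Infinite K := IsAlgClosed.instInfinite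
  obtain ⟨k, hk⟩ : ∃ k, k = Module.finrank K V := ⟨_, rfl⟩
  have eV : V ≃ₗ[K] (Fin k → K) := (Module.finBasisOfFinrankEq K V hk.symm).equivFun
  have eM : M ≃ₗ[K] (Fin (k + i) → K) :=
    (Module.finBasisOfFinrankEq K M (by rw [hdim, hk])).equivFun
  -- the matrices
  have hmat : ∀ f : V →ₗ[K] M, ∃ F : Matrix (Fin (k + i)) (Fin k) K,
      ∀ v, F.mulVec v = eM (f (eV.symm v)) := by
    intro f
    refine ⟨LinearMap.toMatrix' ((eM.toLinearMap ∘ₗ f) ∘ₗ eV.symm.toLinearMap), fun v => ?_⟩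
    rw [LinearMap.toMatrix'_mulVec]
    rfl
  obtain ⟨x₀, hx₀⟩ := hmat x
  obtain ⟨y₀, hy₀⟩ := hmat y
  obtain ⟨z₀, hz₀⟩ := hmat z
  have hPJ₀ : PJ x₀ z₀ := by
    intro α β hαβ v hv
    rw [Matrix.add_mulVec, Matrix.smul_mulVec, Matrix.smul_mulVec, hx₀, hz₀] at hv
    have hv' : eM (α • x (eV.symm v) + β • z (eV.symm v)) = 0 := by
      rw [map_add, map_smul, map_smul]
      exact hv
    have h1 := hPJ α β hαβ (eV.symm v) (eM.map_eq_zero_iff.1 hv')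
    exact eV.symm.map_eq_zero_iff.1 h1
  have hsur₀ : ∀ m, ∃ v w, m = x₀.mulVec v + z₀.mulVec w := by
    intro m
    obtain ⟨v, w, h⟩ := hsur (eM.symm m)
    refine ⟨eV v, eV w, ?_⟩
    rw [hx₀, hz₀, eV.symm_apply_apply, eV.symm_apply_apply, ← map_add, ← h,
      eM.apply_symm_apply]
  have hAB : ∀ j : Fin k, ∃ v w, y₀.col j = x₀.mulVec v + z₀.mulVec w := fun j => hsur₀ _
  choose a b hab using hAB
  obtain ⟨A, hA⟩ : ∃ A : Matrix (Fin k) (Fin k) K, A = Matrix.of fun r j => a j r := ⟨_, rfl⟩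
  obtain ⟨B, hB⟩ : ∃ B : Matrix (Fin k) (Fin k) K, B = Matrix.of fun r j => b j r := ⟨_, rfl⟩
  have hy : y₀ = x₀ * A + z₀ * B := by
    apply Matrix.ext
    intro r j
    have h1 := congrFun (hab j) r
    rw [hA, hB]
    simpa [Matrix.mul_apply, Matrix.mulVec, dotProduct] using h1
  have hex₀ : ∀ v w, x₀.mulVec v = z₀.mulVec w →
      ∃ u, y₀.mulVec v = z₀.mulVec u ∧ y₀.mulVec w = x₀.mulVec u := by
    intro v w h
    rw [hx₀, hz₀] at h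
    have h1 := eM.injective h
    obtain ⟨u, h2, h3⟩ := hex (y (eV.symm v)) (- y (eV.symm w)) (by
      rw [map_neg, hxy, h1, hyz, add_neg_cancel])
    refine ⟨eV u, ?_, ?_⟩
    · rw [hy₀, hz₀, eV.symm_apply_apply, h2]
    · rw [hy₀, hx₀, eV.symm_apply_apply, neg_injective h3]
  have hst := hCMB K (k + i) k x₀ y₀ z₀ A B hPJ₀ hy hex₀
  obtain ⟨μ, hμ1, hμ2, hμ3, hμ4⟩ := hCMD K k i x₀ y₀ z₀ A B hPJ₀ hsur₀ hst
    (fun p v hp h => hCMC K (k + i) k x₀ z₀ hPJ₀ p v hp h)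
  have hdeg := hCME K k A B μ hμ1 hμ3
  obtain ⟨θ, hθ, hθ0, hθa⟩ := hCMF K (k + i) k x₀ y₀ z₀ A B μ hPJ₀ hy hμ1 hdeg hμ4
  refine ⟨μ.natDegree, hμ2, θ, hθ, hθ0, ?_⟩
  intro Ω _ _ _ _ ι₀ ι₁ h0 h1 h2 v
  have h3 := hθa Ω (ι₀ ∘ₗ eV.symm.toLinearMap) (ι₁ ∘ₗ eM.symm.toLinearMap) ?_ ?_ ?_ (eV v)
  · simpa using h3
  · intro v
    simp only [LinearMap.comp_apply, LinearEquiv.coe_coe]
    rw [h0, hx₀, eM.symm_apply_apply]
  · intro v
    simp only [LinearMap.comp_apply, LinearEquiv.coe_coe]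
    rw [h1, hy₀, eM.symm_apply_apply]
  · intro v
    simp only [LinearMap.comp_apply, LinearEquiv.coe_coe]
    rw [h2, hz₀, eM.symm_apply_apply]

end Pool.EG3
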