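import Pool.Agent.H43.EG3.CMC

/-!
# EG3: CMB, stability
-/

set_option autoImplicit false

namespace Pool.EG3.Cm

open Polynomial Matrix

variable {K : Type} [Field K] {k m : ℕ}

theorem PM_mul (A B : Matrix (Fin k) (Fin k) K) (v : Fin k → K[X]) :
    PM A B *ᵥ v = A.map C *ᵥ v + (Polynomial.X : K[X]) • (B.map C *ᵥ v) := by
  unfold PM
  rw [add_mulVec, smul_mulVec]

/-- The polynomial vector with given coefficients. -/
noncomputable def mkv (n : ℕ) (u : ℕ → Fin k → K) : Fin k → K[X] := fun a =>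
  ∑ j ∈ Finset.range n, monomial j (u j a)

theorem cf_mkv (n : ℕ) (u : ℕ → Fin k → K) (h : ∀ j, n ≤ j → u j = 0) (j : ℕ) :
    cf (mkv n u) j = u j := by
  funext a
  simp only [cf, mkv, finsetSum_coeff, coeff_monomial]
  rw [Finset.sum_ite_eq' (Finset.range n) j fun i => u i a]
  split_ifs with h1
  · rfl
  · rw [h j (by simpa using h1)]
    rfl

end Pool.EG3.Cm

namespace Pool.EG3

open Pool.EG3.Cm Polynomial Matrix

/-- CMB. -/
theorem t_cmb : CMBStmt := by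
  intro K _ _ m k x y z A B hPJ hy hex v hv
  obtain ⟨w, hw⟩ := mem_QQ.1 hv
  have hx := PJ_x hPJ
  obtain ⟨N₁, hN₁⟩ := cf_bd v
  obtain ⟨N₂, hN₂⟩ := cf_bd w
  -- the coefficients
  have h0 : x *ᵥ cf v 0 = z *ᵥ cf w 0 := by
    rw [← cf_mul, hw, cf_Dm_zero]
  have h1 : ∀ j, x *ᵥ (cf v (j + 1) + cf w j) = z *ᵥ cf w (j + 1) := by
    intro j
    rw [mulVec_add, ← cf_mul, hw, cf_Dm_succ, sub_add_cancel]
  have h2 : ∀ j, ∃ u : Fin k → K, y *ᵥ (match j with
      | 0 => cf v 0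
      | j + 1 => cf v (j + 1) + cf w j) = z *ᵥ u ∧ y *ᵥ cf w j = x *ᵥ u := by
    intro j
    cases j with
    | zero => exact hex _ _ h0
    | succ j => exact hex _ _ (h1 j)
  choose u hu1 hu2 using h2
  have hu0 : ∀ j, N₂ + 1 ≤ j → u j = 0 := by
    intro j hj
    apply hx
    rw [← hu2 j, hN₂ j (by omega), mulVec_zero]
  have hcu := cf_mkv (N₂ + 1) u hu0
  -- `y v = (z - s x) u`
  have h3 : y.map C *ᵥ v = Dm x z *ᵥ mkv (N₂ + 1) u := by
    refine cf_ext fun j => ?_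
    cases j with
    | zero =>
      rw [cf_mul, cf_Dm_zero, hcu, ← hu1 0]
    | succ j =>
      rw [cf_mul, cf_Dm_succ, hcu, hcu, ← hu1 (j + 1), ← hu2 j]
      simp only [mulVec_add]
      rw [add_sub_cancel_right]
  refine mem_QQ.2 ⟨mkv (N₂ + 1) u - B.map C *ᵥ v, ?_⟩
  rw [mulVec_sub, ← h3, PM_mul, mulVec_add, mulVec_smul, Dm_mul]
  have e1 : y.map C = x.map C * A.map C + z.map C * B.map (C : K →+* K[X]) := by
    rw [hy, Matrix.map_add _ (fun a b => C_add), Matrix.map_mul, Matrix.map_mul]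
  rw [e1, add_mulVec, ← mulVec_mulVec, ← mulVec_mulVec]
  abel

end Pool.EG3
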