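import Pool.Agent.H45.EG3.S2

/-!
# EG3: CMC, the quotient is torsion free
-/

set_option autoImplicit false
set_option linter.unusedSectionVars false

namespace Pool.EG3.Cm

open Polynomial Matrix

variable {K : Type} [Field K] {k m : ℕ}

/-- The matrix `Z - s X`. -/
noncomputable def Dm (X Z : Matrix (Fin m) (Fin k) K) : Matrix (Fin m) (Fin k) K[X] :=
  Z.map C - (Polynomial.X : K[X]) • X.map C

/-- The coefficient vector of a polynomial vector. -/
def cf {n : ℕ} (v : Fin n → K[X]) (j : ℕ) : Fin n → K := fun a => (v a).coeff j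

theorem cf_ext {n : ℕ} {v w : Fin n → K[X]} (h : ∀ j, cf v j = cf w j) : v = w := by
  funext a
  ext j
  exact congrFun (h j) a

theorem cf_mul {n : ℕ} (M : Matrix (Fin n) (Fin k) K) (v : Fin k → K[X]) (j : ℕ) :
    cf (M.map C *ᵥ v) j = M *ᵥ cf v j := by
  funext a
  simp only [cf, mulVec, dotProduct, Matrix.map_apply, finsetSum_coeff, coeff_C_mul]

theorem cf_X_zero {n : ℕ} (v : Fin n → K[X]) : cf ((Polynomial.X : K[X]) • v) 0 = 0 := by
  funext a
  simp [cf]

theorem cf_X_succ {n : ℕ} (v : Fin n → K[X]) (j : ℕ) :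
    cf ((Polynomial.X : K[X]) • v) (j + 1) = cf v j := by
  funext a
  simp [cf, coeff_X_mul]

theorem cf_sub {n : ℕ} (v w : Fin n → K[X]) (j : ℕ) : cf (v - w) j = cf v j - cf w j := by
  funext a
  simp [cf]

theorem cf_add {n : ℕ} (v w : Fin n → K[X]) (j : ℕ) : cf (v + w) j = cf v j + cf w j := by
  funext a
  simp [cf]

theorem cf_zero {n : ℕ} (j : ℕ) : cf (0 : Fin n → K[X]) j = 0 := by
  funext a
  simp [cf]

theorem Dm_mul (X Z : Matrix (Fin m) (Fin k) K) (v : Fin k → K[X]) :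
    Dm X Z *ᵥ v = Z.map C *ᵥ v - (Polynomial.X : K[X]) • (X.map C *ᵥ v) := by
  unfold Dm
  rw [sub_mulVec, smul_mulVec]

theorem cf_Dm_zero (X Z : Matrix (Fin m) (Fin k) K) (v : Fin k → K[X]) :
    cf (Dm X Z *ᵥ v) 0 = Z *ᵥ cf v 0 := by
  rw [Dm_mul, cf_sub, cf_mul, cf_X_zero, sub_zero]

theorem cf_Dm_succ (X Z : Matrix (Fin m) (Fin k) K) (v : Fin k → K[X]) (j : ℕ) :
    cf (Dm X Z *ᵥ v) (j + 1) = Z *ᵥ cf v (j + 1) - X *ᵥ cf v j := by
  rw [Dm_mul, cf_sub, cf_mul, cf_X_succ, cf_mul]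

/-- A bound for the degrees. -/
theorem cf_bd {n : ℕ} (v : Fin n → K[X]) : ∃ N, ∀ j, N < j → cf v j = 0 := by
  refine ⟨Finset.univ.sup fun a => (v a).natDegree, fun j hj => ?_⟩
  funext a
  refine coeff_eq_zero_of_natDegree_lt (lt_of_le_of_lt ?_ hj)
  exact Finset.le_sup (f := fun a => (v a).natDegree) (Finset.mem_univ a)

/-- `Z - s X` is injective. -/
theorem Dm_inj {X Z : Matrix (Fin m) (Fin k) K} (hX : ∀ v : Fin k → K, X *ᵥ v = 0 → v = 0)
    {w : Fin k → K[X]} (h : Dm X Z *ᵥ w = 0) : w = 0 := by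
  obtain ⟨N, hN⟩ := cf_bd w
  have key : ∀ i j, N + 1 ≤ i + j → cf w j = 0 := by
    intro i
    induction i with
    | zero =>
      intro j hj
      exact hN j (by omega)
    | succ i ih =>
      intro j hj
      have h1 := ih (j + 1) (by omega)
      have h2 := cf_Dm_succ X Z w j
      rw [h, h1, mulVec_zero] at h2
      apply hX
      rw [cf_zero, zero_sub] at h2
      exact neg_eq_zero.1 h2.symm
  refine cf_ext fun j => ?_
  rw [key (N + 1) j (by omega), cf_zero]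

/-- Evaluation. -/
theorem ev_Dm (X Z : Matrix (Fin m) (Fin k) K) (v : Fin k → K[X]) (s : K) :
    (fun a => (Dm X Z *ᵥ v) a |>.eval s) =
      Z *ᵥ (fun b => (v b).eval s) - s • (X *ᵥ fun b => (v b).eval s) := by
  funext a
  rw [Dm_mul]
  simp only [Pi.sub_apply, Pi.smul_apply, smul_eq_mul, eval_sub, eval_mul, eval_X, mulVec,
    dotProduct, Matrix.map_apply, eval_finsetSum, eval_C]

/-- The quotient is torsion free. -/
theorem Dm_sat [IsAlgClosed K] {X Z : Matrix (Fin m) (Fin k) K}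
    (hZ : ∀ (s : K) (v : Fin k → K), Z *ᵥ v - s • (X *ᵥ v) = 0 → v = 0) (n : ℕ) :
    ∀ (d : K[X]), d ≠ 0 → d.natDegree = n → ∀ (u : Fin m → K[X]) (w : Fin k → K[X]),
      d • u = Dm X Z *ᵥ w → ∃ w', u = Dm X Z *ᵥ w' := by
  induction n with
  | zero =>
    intro d hd hn u w h
    obtain ⟨c, rfl⟩ := natDegree_eq_zero.1 hn
    have hc : c ≠ 0 := fun h0 => hd (by rw [h0, C_0])
    refine ⟨C c⁻¹ • w, ?_⟩
    rw [mulVec_smul, ← h, smul_smul, ← C_mul, inv_mul_cancel₀ hc, C_1, one_smul]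
  | succ n ih =>
    intro d hd hn u w h
    have hdeg : d.degree ≠ 0 := by
      rw [degree_eq_natDegree hd, hn]
      exact_mod_cast Nat.succ_ne_zero n
    obtain ⟨s, hs⟩ := IsAlgClosed.exists_root d hdeg
    obtain ⟨d', hd'⟩ := dvd_iff_isRoot.2 hs
    -- the value of `w` at `s` is zero
    have h1 : (fun b => (w b).eval s) = 0 := by
      apply hZ s
      rw [← ev_Dm, ← h]
      funext a
      simp only [Pi.smul_apply, smul_eq_mul, eval_mul, Pi.zero_apply]
      rw [show d.eval s = 0 from hs, zero_mul]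
    have h2 : ∀ b, ∃ w' : K[X], w b = (Polynomial.X - C s) * w' := fun b =>
      dvd_iff_isRoot.2 (congrFun h1 b)
    choose w' hw' using h2
    have hXs : (Polynomial.X - C s : K[X]) ≠ 0 := X_sub_C_ne_zero s
    have hd0 : d' ≠ 0 := by
      rintro rfl
      rw [mul_zero] at hd'
      exact hd hd'
    refine ih d' hd0 ?_ u w' ?_
    · rw [hd', natDegree_mul hXs hd0, natDegree_X_sub_C] at hn
      omega
    · have h3 : (Polynomial.X - C s : K[X]) • (d' • u) =
          (Polynomial.X - C s : K[X]) • (Dm X Z *ᵥ w') := by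
        rw [smul_smul, ← hd', h, ← mulVec_smul]
        congr 1
        funext b
        exact hw' b
      funext a
      have h4 := congrFun h3 a
      simp only [Pi.smul_apply, smul_eq_mul] at h4 ⊢
      exact mul_left_cancel₀ hXs h4

theorem mem_QQ {x z : Matrix (Fin m) (Fin k) K} {v : Fin k → K[X]} :
    v ∈ QQ x z ↔ ∃ w, x.map C *ᵥ v = Dm x z *ᵥ w := Iff.rfl

theorem PJ_x {x z : Matrix (Fin m) (Fin k) K} (h : PJ x z) : ∀ v : Fin k → K, x *ᵥ v = 0 →
    v = 0 := by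
  intro v hv
  refine h 1 0 (Or.inl one_ne_zero) v ?_
  rw [one_smul, zero_smul, add_zero]
  exact hv

theorem PJ_z {x z : Matrix (Fin m) (Fin k) K} (h : PJ x z) : ∀ (s : K) (v : Fin k → K),
    z *ᵥ v - s • (x *ᵥ v) = 0 → v = 0 := by
  intro s v hv
  refine h (-s) 1 (Or.inr one_ne_zero) v ?_
  rw [add_mulVec, smul_mulVec, smul_mulVec, one_smul, neg_smul, neg_add_eq_sub]
  exact hv

end Pool.EG3.Cm

namespace Pool.EG3

open Pool.EG3.Cm Polynomial Matrix

/-- CMC. -/
theorem t_cmc : CMCStmt := by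
  intro K _ _ m k x z hPJ p v hp h
  obtain ⟨w, hw⟩ := mem_QQ.1 h
  rw [mulVec_smul] at hw
  obtain ⟨w', hw'⟩ := Dm_sat (PJ_z hPJ) _ p hp rfl _ w hw
  exact mem_QQ.2 ⟨w', hw'⟩

end Pool.EG3
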