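import Pool.Agent.H43.EG3.CMC

/-!
# EG3: CMD, the minimal polynomial
-/

set_option autoImplicit false
set_option linter.unusedSectionVars false

namespace Pool.EG3.Cm

open Polynomial Matrix

section frac

variable {K : Type} [Field K] {k m : ℕ} (L : Type) [Field L] [Algebra K[X] L]
  [IsFractionRing K[X] L]

/-- The inclusion of vectors. -/
noncomputable def up {n : ℕ} (v : Fin n → K[X]) : Fin n → L := fun a => algebraMap K[X] L (v a)

theorem up_inj {n : ℕ} {v w : Fin n → K[X]} (h : up L v = up L w) : v = w := by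
  funext a
  exact IsFractionRing.injective K[X] L (congrFun h a)

theorem up_mul {n n' : ℕ} (M : Matrix (Fin n) (Fin n') K[X]) (v : Fin n' → K[X]) :
    up L (M *ᵥ v) = M.map (algebraMap K[X] L) *ᵥ up L v := by
  funext a
  simp only [up, mulVec, dotProduct, Matrix.map_apply, map_sum, map_mul]

theorem up_smul {n : ℕ} (d : K[X]) (v : Fin n → K[X]) :
    up L (d • v) = algebraMap K[X] L d • up L v := by
  funext a
  simp [up]

theorem up_clear {n n' : ℕ} (v : Fin n → L) (w : Fin n' → L) : ∃ (d : K[X]) (v' : Fin n → K[X])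
    (w' : Fin n' → K[X]), d ≠ 0 ∧ algebraMap K[X] L d • v = up L v' ∧
      algebraMap K[X] L d • w = up L w' := by
  obtain ⟨b, hb⟩ := IsLocalization.exist_integer_multiples_of_finite (nonZeroDivisors K[X])
    (Sum.elim v w)
  have h1 : ∀ a, ∃ c : K[X], algebraMap K[X] L c = algebraMap K[X] L b * v a := by
    intro a
    obtain ⟨c, hc⟩ := hb (Sum.inl a)
    exact ⟨c, by rw [hc, Algebra.smul_def]; rfl⟩
  have h2 : ∀ a, ∃ c : K[X], algebraMap K[X] L c = algebraMap K[X] L b * w a := by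
    intro a
    obtain ⟨c, hc⟩ := hb (Sum.inr a)
    exact ⟨c, by rw [hc, Algebra.smul_def]; rfl⟩
  choose v' hv' using h1
  choose w' hw' using h2
  refine ⟨b, v', w', nonZeroDivisors.coe_ne_zero b, ?_, ?_⟩
  · funext a
    exact (hv' a).symm
  · funext a
    exact (hw' a).symm

end frac

section main

variable {K : Type} [Field K] {k m : ℕ}

theorem mapQ_aeval {L V : Type} [Field L] [AddCommGroup V] [Module L V] (W : Submodule L V)
    (f : V →ₗ[L] V) (h : W ≤ W.comap f) (p : L[X]) (v : V) :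
    aeval (W.mapQ W f h) p (W.mkQ v) = W.mkQ (aeval f p v) := by
  have hpow : ∀ n : ℕ, ((W.mapQ W f h) ^ n) (W.mkQ v) = W.mkQ ((f ^ n) v) := by
    intro n
    induction n with
    | zero => simp
    | succ n ih =>
      rw [pow_succ', pow_succ', Module.End.mul_apply, ih, Module.End.mul_apply]
      rfl
  induction p using Polynomial.induction_on' with
  | add p q hp hq => rw [map_add, map_add, LinearMap.add_apply, hp, hq, LinearMap.add_apply, map_add]
  | monomial n a =>
    rw [aeval_monomial, aeval_monomial, Module.algebraMap_end_eq_smul_id,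
      Module.algebraMap_end_eq_smul_id, Module.End.mul_apply, Module.End.mul_apply, hpow]
    simp

/-- **The minimal polynomial of the quotient.** -/
theorem pencil_min [IsAlgClosed K] {X Z : Matrix (Fin m) (Fin k) K}
    (hX : ∀ v : Fin k → K, X *ᵥ v = 0 → v = 0)
    (hZ : ∀ (s : K) (v : Fin k → K), Z *ᵥ v - s • (X *ᵥ v) = 0 → v = 0)
    (T : Matrix (Fin k) (Fin k) K[X])
    (hst : ∀ v w : Fin k → K[X], X.map C *ᵥ v = Dm X Z *ᵥ w →
      ∃ w', X.map C *ᵥ (T *ᵥ v) = Dm X Z *ᵥ w') :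
    ∃ μ : K[X][X], μ.Monic ∧ μ.natDegree + k ≤ m ∧ μ ∣ T.charpoly ∧
      ∀ v : Fin k → K[X], ∃ w, X.map C *ᵥ (aeval T μ *ᵥ v) = Dm X Z *ᵥ w := by
  classical
  obtain ⟨XL, hXL⟩ : ∃ XL, XL = (X.map C).map (algebraMap K[X] (FractionRing K[X])) := ⟨_, rfl⟩
  obtain ⟨DL, hDL⟩ : ∃ DL, DL = (Dm X Z).map (algebraMap K[X] (FractionRing K[X])) := ⟨_, rfl⟩
  obtain ⟨TL, hTL⟩ : ∃ TL, TL = T.map (algebraMap K[X] (FractionRing K[X])) := ⟨_, rfl⟩
  have hd0 : ∀ d : K[X], d ≠ 0 → algebraMap K[X] (FractionRing K[X]) d ≠ 0 := by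
    intro d hd h
    exact hd (IsFractionRing.injective K[X] (FractionRing K[X]) (by rw [h, map_zero]))
  -- the range of `Z - s X`
  obtain ⟨Rg, hRg⟩ : ∃ Rg, Rg = LinearMap.range DL.mulVecLin := ⟨_, rfl⟩
  have hDinj : Function.Injective DL.mulVecLin := by
    rw [injective_iff_map_eq_zero]
    intro w hw
    obtain ⟨d, w', -, hd, h1, -⟩ := up_clear (K := K) (FractionRing K[X]) w w
    have h2 : up (FractionRing K[X]) (Dm X Z *ᵥ w') =
        up (FractionRing K[X]) (0 : Fin m → K[X]) := by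
      rw [up_mul, ← h1, mulVec_smul, ← hDL]
      have h3 : DL *ᵥ w = 0 := hw
      rw [h3, smul_zero]
      funext a
      simp [up]
    have h2' : Dm X Z *ᵥ w' = (0 : Fin m → K[X]) := up_inj (K := K) (FractionRing K[X]) h2
    have h3 := Dm_inj hX h2'
    rw [h3] at h1
    have h4 : algebraMap K[X] (FractionRing K[X]) d • w = 0 := by
      rw [h1]
      funext a
      simp [up]
    exact (smul_eq_zero.1 h4).resolve_left (hd0 d hd)
  have hRgk : Module.finrank (FractionRing K[X]) Rg = k := by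
    rw [hRg, LinearMap.finrank_range_of_inj hDinj]
    simp
  obtain ⟨ψ, hψ⟩ : ∃ ψ, ψ = Rg.mkQ ∘ₗ XL.mulVecLin := ⟨_, rfl⟩
  obtain ⟨W, hW⟩ : ∃ W, W = LinearMap.ker ψ := ⟨_, rfl⟩
  have hmW : ∀ v, v ∈ W ↔ ∃ w, XL *ᵥ v = DL *ᵥ w := by
    intro v
    rw [hW, hψ, LinearMap.mem_ker, LinearMap.comp_apply, Submodule.mkQ_apply,
      Submodule.Quotient.mk_eq_zero, hRg, LinearMap.mem_range]
    exact ⟨fun ⟨w, h⟩ => ⟨w, h.symm⟩, fun ⟨w, h⟩ => ⟨w, h.symm⟩⟩
  have hfin : Module.finrank (FractionRing K[X]) ((Fin k → FractionRing K[X]) ⧸ W) + k ≤ m := by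
    have h1 : Module.finrank (FractionRing K[X]) ((Fin k → FractionRing K[X]) ⧸ W) =
        Module.finrank (FractionRing K[X]) (LinearMap.range ψ) := by
      rw [hW]
      exact ψ.quotKerEquivRange.finrank_eq
    have h2 := Submodule.finrank_le (LinearMap.range ψ)
    have h3 := Submodule.finrank_quotient_add_finrank Rg
    rw [hRgk, Module.finrank_fin_fun] at h3
    omega
  -- a vector over `K [s]` with image in `W`
  have hdown : ∀ v : Fin k → K[X], up (FractionRing K[X]) v ∈ W →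
      ∃ w, X.map C *ᵥ v = Dm X Z *ᵥ w := by
    intro v hv
    obtain ⟨w, hw⟩ := (hmW _).1 hv
    obtain ⟨d, w', -, hd, h1, -⟩ := up_clear (K := K) (FractionRing K[X]) w w
    have h2 : d • (X.map C *ᵥ v) = Dm X Z *ᵥ w' := by
      apply up_inj (FractionRing K[X])
      rw [up_smul, up_mul, up_mul, ← h1, mulVec_smul, ← hDL, ← hXL, hw]
    exact Dm_sat hZ _ d hd rfl _ w' h2
  obtain ⟨TE, hTE⟩ : ∃ TE : (Fin k → FractionRing K[X]) →ₗ[FractionRing K[X]]
    (Fin k → FractionRing K[X]), TE = Matrix.toLinAlgEquiv' TL := ⟨_, rfl⟩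
  have hTEa : ∀ v, TE v = TL *ᵥ v := by
    intro v
    rw [hTE, Matrix.toLinAlgEquiv'_apply]
  have hstab : W ≤ W.comap TE := by
    intro v hv
    obtain ⟨w, hw⟩ := (hmW _).1 hv
    obtain ⟨d, v', w', hd, h1, h2⟩ := up_clear (K := K) (FractionRing K[X]) v w
    have h3 : X.map C *ᵥ v' = Dm X Z *ᵥ w' := by
      apply up_inj (FractionRing K[X])
      rw [up_mul, up_mul, ← h1, ← h2, mulVec_smul, mulVec_smul, ← hXL, ← hDL, hw]
    obtain ⟨w'', h4⟩ := hst v' w' h3
    have h5 : algebraMap K[X] (FractionRing K[X]) d • TE v ∈ W := by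
      rw [hmW]
      refine ⟨up (FractionRing K[X]) w'', ?_⟩
      rw [hTEa, ← mulVec_smul, h1, hTL, ← up_mul, hXL, ← up_mul, h4, up_mul, hDL]
    have h6 := W.smul_mem (algebraMap K[X] (FractionRing K[X]) d)⁻¹ h5
    rw [smul_smul, inv_mul_cancel₀ (hd0 d hd), one_smul] at h6
    exact h6
  obtain ⟨TN, hTN⟩ : ∃ TN, TN = W.mapQ W TE hstab := ⟨_, rfl⟩
  obtain ⟨μL, hμL⟩ : ∃ μL, μL = minpoly (FractionRing K[X]) TN := ⟨_, rfl⟩
  have hmon : μL.Monic := by
    rw [hμL]
    exact minpoly.monic (Algebra.IsIntegral.isIntegral TN)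
  have hdeg : μL.natDegree + k ≤ m := by
    have h1 : μL ∣ TN.charpoly := by
      rw [hμL]
      exact LinearMap.minpoly_dvd_charpoly TN
    have h2 := natDegree_le_of_dvd h1 (LinearMap.charpoly_monic TN).ne_zero
    rw [LinearMap.charpoly_natDegree] at h2
    omega
  have hdvd : μL ∣ T.charpoly.map (algebraMap K[X] (FractionRing K[X])) := by
    have e1 : T.charpoly.map (algebraMap K[X] (FractionRing K[X])) = TL.charpoly := by
      rw [hTL]
      exact (Matrix.charpoly_map T _).symm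
    rw [e1, hμL]
    refine minpoly.dvd _ _ ?_
    apply LinearMap.ext
    intro x
    obtain ⟨v, rfl⟩ := W.mkQ_surjective x
    rw [hTN, mapQ_aeval]
    have h1 : aeval TE TL.charpoly = 0 := by
      rw [hTE]
      have h2 : aeval (Matrix.toLinAlgEquiv' TL) TL.charpoly =
          Matrix.toLinAlgEquiv' (aeval TL TL.charpoly) :=
        Polynomial.aeval_algHom_apply (Matrix.toLinAlgEquiv' :
          Matrix (Fin k) (Fin k) (FractionRing K[X]) ≃ₐ[FractionRing K[X]] _) TL TL.charpoly
      rw [h2, Matrix.aeval_self_charpoly, map_zero]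
    rw [h1, LinearMap.zero_apply, map_zero, LinearMap.zero_apply]
  obtain ⟨μ, hμ⟩ := IsIntegrallyClosed.eq_map_mul_C_of_dvd (FractionRing K[X])
    T.charpoly_monic hdvd
  rw [hmon.leadingCoeff, C_1, mul_one] at hμ
  have hinj := IsFractionRing.injective K[X] (FractionRing K[X])
  have hμm : μ.Monic := by
    rw [← hμ] at hmon
    exact monic_of_injective hinj hmon
  refine ⟨μ, hμm, ?_, ?_, fun v => ?_⟩
  · rw [← hμ, natDegree_map_eq_of_injective hinj] at hdeg
    exact hdeg
  · rw [← hμ] at hdvd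
    exact (map_dvd_map _ hinj hμm).1 hdvd
  · apply hdown
    have e1 : up (FractionRing K[X]) (aeval T μ *ᵥ v) = aeval TE μL (up (FractionRing K[X]) v) := by
      rw [up_mul]
      have e2 : (aeval T μ).map (algebraMap K[X] (FractionRing K[X])) = aeval TL μL := by
        have e3 : (algebraMap K[X] (FractionRing K[X])).mapMatrix (aeval T μ) = aeval TL μL := by
          rw [aeval_def, hom_eval₂, aeval_def, ← hμ, eval₂_map]
          congr 1
          · apply RingHom.ext
            intro r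
            apply Matrix.ext
            intro i j
            simp only [RingHom.comp_apply, RingHom.mapMatrix_apply, Matrix.map_apply,
              Matrix.algebraMap_matrix_apply]
            split_ifs <;> simp
          · rw [hTL]
            rfl
        exact e3
      rw [e2, hTE]
      have h2 : aeval (Matrix.toLinAlgEquiv' TL) μL = Matrix.toLinAlgEquiv' (aeval TL μL) :=
        Polynomial.aeval_algHom_apply (Matrix.toLinAlgEquiv' :
          Matrix (Fin k) (Fin k) (FractionRing K[X]) ≃ₐ[FractionRing K[X]] _) TL μL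
      rw [h2, Matrix.toLinAlgEquiv'_apply]
    rw [e1]
    have h3 := mapQ_aeval W TE hstab μL (up (FractionRing K[X]) v)
    have h4 : aeval (W.mapQ W TE hstab) μL = 0 := by
      rw [← hTN, hμL]
      exact minpoly.aeval _ _
    rw [h4, LinearMap.zero_apply] at h3
    exact (Submodule.Quotient.mk_eq_zero W).1 h3.symm

end main

end Pool.EG3.Cm

namespace Pool.EG3

open Pool.EG3.Cm Polynomial Matrix

/-- CMD. -/
theorem t_cmd : CMDStmt := by
  intro K _ _ k i x y z A B hPJ _ hst _
  obtain ⟨μ, h1, h2, h3, h4⟩ := pencil_min (PJ_x hPJ) (PJ_z hPJ) (PM A B)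
    (fun v w h => mem_QQ.1 (hst v (mem_QQ.2 ⟨w, h⟩)))
  exact ⟨μ, h1, by omega, h3, fun v => mem_QQ.2 (h4 v)⟩

end Pool.EG3
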