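import Pool.Agent.H45.EG3.S2

/-!
# EG3: CME, the degrees of the coefficients
-/

set_option autoImplicit false

namespace Pool.EG3.Ce

open Polynomial Matrix

variable {K : Type} [Field K]

/-- The homomorphism `s ↦ s U`, `Y ↦ Y U`. -/
noncomputable def ps0 (K : Type) [Field K] : K[X] →+* K[X][X][X] :=
  eval₂RingHom (R := K) (S := K[X][X][X]) ((C : K[X][X] →+* K[X][X][X]).comp
    ((C : K[X] →+* K[X][X]).comp (C : K →+* K[X]))) ((C (C (X : K[X]))) * X)

/-- The homomorphism `s ↦ s U`, `Y ↦ Y U`. -/
noncomputable def ps (K : Type) [Field K] : K[X][X] →+* K[X][X][X] :=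
  eval₂RingHom (R := K[X]) (S := K[X][X][X]) (ps0 K) ((C (X : K[X][X])) * X)

theorem ps_mono (n m : ℕ) (c : K) : ps K (monomial n (monomial m c)) =
    monomial (m + n) (monomial n (monomial m c)) := by
  unfold ps ps0
  rw [coe_eval₂RingHom, eval₂_monomial, coe_eval₂RingHom, eval₂_monomial]
  simp only [← C_mul_X_pow_eq_monomial, RingHom.comp_apply, C_mul, C_pow, pow_add]
  ring

theorem ps_coeff (p : K[X][X]) (e j a : ℕ) :
    (((ps K p).coeff e).coeff j).coeff a = if a + j = e then (p.coeff j).coeff a else 0 := by
  induction p using Polynomial.induction_on' with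
  | add p q hp hq =>
    rw [map_add, coeff_add, coeff_add, coeff_add, hp, hq, coeff_add, coeff_add]
    split_ifs <;> simp
  | monomial n q =>
    induction q using Polynomial.induction_on' with
    | add p q hp hq =>
      rw [map_add, map_add, coeff_add, coeff_add, coeff_add, hp, hq, coeff_add, coeff_add]
      split_ifs <;> simp
    | monomial m c =>
      rw [ps_mono]
      simp only [coeff_monomial]
      by_cases h1 : n = j
      · subst h1
        by_cases h2 : m = a
        · subst h2
          by_cases h3 : m + n = e <;> simp [h3]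
        · by_cases h3 : m + n = e <;> simp [h3, coeff_monomial, h2]
      · by_cases h3 : m + n = e <;> simp [h3, coeff_monomial, h1]

theorem ps_le (p : K[X][X]) (h : p.Monic) : p.natDegree ≤ (ps K p).natDegree := by
  apply le_natDegree_of_ne_zero
  intro h0
  have h1 := ps_coeff p p.natDegree p.natDegree 0
  rw [h0, coeff_zero, coeff_zero, if_pos (zero_add _), coeff_natDegree, h.leadingCoeff,
    coeff_one_zero] at h1
  exact zero_ne_one h1

theorem ps_charpoly {k : ℕ} (A B : Matrix (Fin k) (Fin k) K) :
    (ps K (PM A B).charpoly).natDegree ≤ k := by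
  have h1 : ps K (PM A B).charpoly = det ((X : K[X][X][X]) •
      (((X : K[X][X]) • (1 : Matrix (Fin k) (Fin k) K[X][X])) -
        (C (X : K[X])) • B.map (fun c => C (C c))).map C +
      (-(A.map (fun c => C (C c)) : Matrix (Fin k) (Fin k) K[X][X])).map C) := by
    unfold Matrix.charpoly
    refine (RingHom.map_det (R := K[X][X]) (S := K[X][X][X]) (ps K) (charmatrix (PM A B))).trans ?_
    congr 1
    apply Matrix.ext
    intro a b
    simp only [RingHom.mapMatrix_apply, Matrix.map_apply, charmatrix_apply, Matrix.add_apply,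
      Matrix.smul_apply, Matrix.sub_apply, Matrix.neg_apply, smul_eq_mul, PM]
    have e1 : ∀ c : K, ps K (C (C c)) = C (C (C c)) := by
      intro c
      simp [ps, ps0]
    have e2 : ps K X = C X * X := by simp [ps, ps0]
    have e3 : ps K (C X) = C (C X) * X := by simp [ps, ps0]
    by_cases hab : a = b
    · subst hab
      rw [Matrix.diagonal_apply_eq, Matrix.one_apply_eq]
      simp only [map_sub, map_add, map_mul, e1, e2, e3, mul_one, map_neg]
      ring
    · rw [Matrix.diagonal_apply_ne _ hab, Matrix.one_apply_ne hab]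
      simp only [map_sub, map_add, map_mul, e1, e3, mul_zero, map_neg, map_zero]
      ring
  rw [h1]
  refine (natDegree_det_X_add_C_le _ _).trans ?_
  rw [Fintype.card_fin]

end Pool.EG3.Ce

namespace Pool.EG3

open Pool.EG3.Ce Polynomial Matrix

/-- CME. -/
theorem t_cme : CMEStmt := by
  intro K _ _ k A B μ hμ hd j hj
  obtain ⟨ν, hν⟩ := hd
  have hc := Matrix.charpoly_monic (PM A B)
  have hνm : ν.Monic := by
    rw [hν] at hc
    exact hμ.of_mul_monic_left hc
  have h1 : (ps K μ).natDegree + (ps K ν).natDegree ≤ k := by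
    have h2 := ps_charpoly A B
    rw [hν, map_mul, natDegree_mul] at h2
    · exact h2
    · intro h0
      have h3 := ps_coeff μ μ.natDegree μ.natDegree 0
      rw [h0, coeff_zero, coeff_zero, coeff_zero, if_pos (zero_add _), coeff_natDegree,
        hμ.leadingCoeff, coeff_one_zero] at h3
      exact zero_ne_one h3
    · intro h0
      have h3 := ps_coeff ν ν.natDegree ν.natDegree 0
      rw [h0, coeff_zero, coeff_zero, coeff_zero, if_pos (zero_add _), coeff_natDegree,
        hνm.leadingCoeff, coeff_one_zero] at h3
      exact zero_ne_one h3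
  have h2 : μ.natDegree + ν.natDegree = k := by
    have h3 := congrArg Polynomial.natDegree hν
    rw [Matrix.charpoly_natDegree_eq_dim, Fintype.card_fin,
      natDegree_mul hμ.ne_zero hνm.ne_zero] at h3
    exact h3.symm
  have h3 := ps_le ν hνm
  have h4 : (ps K μ).natDegree ≤ μ.natDegree := by omega
  by_contra hcon
  have h5 : (μ.coeff j).natDegree ≠ 0 := by omega
  have h6 := ps_coeff μ ((μ.coeff j).natDegree + j) j (μ.coeff j).natDegree
  have h8 : (ps K μ).coeff ((μ.coeff j).natDegree + j) = 0 :=
    coeff_eq_zero_of_natDegree_lt (by omega)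
  rw [if_pos rfl, coeff_natDegree, h8, coeff_zero, coeff_zero] at h6
  have h7 : μ.coeff j = 0 := leadingCoeff_eq_zero.1 h6.symm
  rw [h7] at h5
  exact h5 natDegree_zero

end Pool.EG3
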