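import Pool.Agent.H43.EG3.CMB

/-!
# EG3: CMF, homogenization
-/

set_option autoImplicit false
set_option linter.unusedSectionVars false

namespace Pool.EG3.Cf

open MvPolynomial Pool.EGH Pool.EG3.Cm

section

open Matrix

variable {K : Type} [Field K] {k m : ℕ} {Ω : Type} [AddCommGroup Ω] [Module K Ω]
  [Module (PR K 3) Ω] [IsScalarTower K (PR K 3) Ω]

open scoped Polynomial

/-- The degree of `r` is at most `l`. -/
def Dg (l : ℕ) (r : Fin k → K[X]) : Prop := ∀ j, l < j → cf r j = 0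

/-- The homogenization. -/
noncomputable def Hm (ι₀ : (Fin k → K) →ₗ[K] Ω) (l : ℕ) (r : Fin k → K[X]) : Ω :=
  ∑ b ∈ Finset.range (l + 1), ((X 0 : PR K 3) ^ (l - b) * X 2 ^ b) • ι₀ (cf r b)

theorem cf_smul (c : K) (r : Fin k → K[X]) (j : ℕ) :
    cf (Polynomial.C c • r) j = c • cf r j := by
  funext a
  simp [cf]

theorem cf_sum {ι : Type} (s : Finset ι) (r : ι → Fin k → K[X]) (j : ℕ) :
    cf (∑ i ∈ s, r i) j = ∑ i ∈ s, cf (r i) j := by
  funext a
  simp [cf, Finset.sum_apply, Polynomial.finsetSum_coeff]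

theorem Hm_sum {ι : Type} (ι₀ : (Fin k → K) →ₗ[K] Ω) (l : ℕ) (s : Finset ι)
    (r : ι → Fin k → K[X]) : Hm ι₀ l (∑ i ∈ s, r i) = ∑ i ∈ s, Hm ι₀ l (r i) := by
  unfold Hm
  rw [Finset.sum_comm]
  refine Finset.sum_congr rfl fun b _ => ?_
  rw [cf_sum, map_sum, Finset.smul_sum]

theorem Cs (c : K) (w : Ω) : (MvPolynomial.C c : PR K 3) • w = c • w := by
  rw [← algebraMap_smul (PR K 3) c w]
  rfl

theorem Hm_C (ι₀ : (Fin k → K) →ₗ[K] Ω) (l : ℕ) (c : K) (r : Fin k → K[X]) :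
    Hm ι₀ l (Polynomial.C c • r) = (MvPolynomial.C c : PR K 3) • Hm ι₀ l r := by
  unfold Hm
  rw [Finset.smul_sum]
  refine Finset.sum_congr rfl fun b _ => ?_
  rw [cf_smul, map_smul, ← Cs, smul_smul, smul_smul, mul_comm]

theorem Hm_X (ι₀ : (Fin k → K) →ₗ[K] Ω) {l : ℕ} {r : Fin k → K[X]} (h : Dg l r) :
    (X 0 : PR K 3) • Hm ι₀ l r = Hm ι₀ (l + 1) r := by
  unfold Hm
  rw [Finset.sum_range_succ _ (l + 1), h (l + 1) (by omega), map_zero, smul_zero, add_zero,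
    Finset.smul_sum]
  refine Finset.sum_congr rfl fun b hb => ?_
  have hb' : b ≤ l := by
    have := Finset.mem_range.1 hb
    omega
  rw [smul_smul, show l + 1 - b = (l - b) + 1 by omega, pow_succ']
  ring_nf

theorem Dg_succ {l : ℕ} {r : Fin k → K[X]} (h : Dg l r) : Dg (l + 1) r := fun j hj =>
  h j (by omega)

theorem Dg_s {l : ℕ} {r : Fin k → K[X]} (h : Dg l r) :
    Dg (l + 1) ((Polynomial.X : K[X]) • r) := by
  intro j hj
  obtain ⟨i, rfl⟩ : ∃ i, j = i + 1 := ⟨j - 1, by omega⟩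
  rw [cf_X_succ]
  exact h i (by omega)

theorem Hm_Z (ι₀ : (Fin k → K) →ₗ[K] Ω) (l : ℕ) (r : Fin k → K[X]) :
    (X 2 : PR K 3) • Hm ι₀ l r = Hm ι₀ (l + 1) ((Polynomial.X : K[X]) • r) := by
  unfold Hm
  rw [Finset.sum_range_succ' _ (l + 1), cf_X_zero, map_zero, smul_zero, add_zero,
    Finset.smul_sum]
  refine Finset.sum_congr rfl fun b _ => ?_
  rw [cf_X_succ, smul_smul, Nat.add_sub_add_right, pow_succ]
  ring_nf

theorem Hm_Xp (ι₀ : (Fin k → K) →ₗ[K] Ω) {l : ℕ} {r : Fin k → K[X]} (h : Dg l r) (c : ℕ) :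
    (X 0 : PR K 3) ^ c • Hm ι₀ l r = Hm ι₀ (l + c) r ∧ Dg (l + c) r := by
  induction c with
  | zero => exact ⟨by rw [pow_zero, one_smul]; rfl, h⟩
  | succ c ih =>
    refine ⟨?_, Dg_succ ih.2⟩
    rw [pow_succ', mul_smul, ih.1, Hm_X ι₀ ih.2]
    rfl

theorem Hm_Zp (ι₀ : (Fin k → K) →ₗ[K] Ω) {l : ℕ} {r : Fin k → K[X]} (h : Dg l r) (a : ℕ) :
    (X 2 : PR K 3) ^ a • Hm ι₀ l r = Hm ι₀ (l + a) ((Polynomial.X : K[X]) ^ a • r) ∧
      Dg (l + a) ((Polynomial.X : K[X]) ^ a • r) := by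
  induction a with
  | zero => exact ⟨by rw [pow_zero, one_smul, pow_zero, one_smul]; rfl,
      by rw [pow_zero, one_smul]; exact h⟩
  | succ a ih =>
    constructor
    · rw [pow_succ', mul_smul, ih.1, Hm_Z, smul_smul, ← pow_succ']
      rfl
    · have := Dg_s ih.2
      rwa [smul_smul, ← pow_succ'] at this

theorem cf_PM_zero (A B : Matrix (Fin k) (Fin k) K) (r : Fin k → K[X]) :
    cf (PM A B *ᵥ r) 0 = A *ᵥ cf r 0 := by
  rw [PM_mul, cf_add, cf_mul, cf_X_zero, add_zero]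

theorem cf_PM_succ (A B : Matrix (Fin k) (Fin k) K) (r : Fin k → K[X]) (j : ℕ) :
    cf (PM A B *ᵥ r) (j + 1) = A *ᵥ cf r (j + 1) + B *ᵥ cf r j := by
  rw [PM_mul, cf_add, cf_mul, cf_X_succ, cf_mul]

theorem Dg_PM (A B : Matrix (Fin k) (Fin k) K) {l : ℕ} {r : Fin k → K[X]} (h : Dg l r) :
    Dg (l + 1) (PM A B *ᵥ r) := by
  intro j hj
  obtain ⟨i, rfl⟩ : ∃ i, j = i + 1 := ⟨j - 1, by omega⟩
  rw [cf_PM_succ, h i (by omega), h (i + 1) (by omega), mulVec_zero, mulVec_zero, add_zero]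

theorem Hm_Y (ι₀ : (Fin k → K) →ₗ[K] Ω) (A B : Matrix (Fin k) (Fin k) K)
    (hY : ∀ v, (X 1 : PR K 3) • ι₀ v =
      (X 0 : PR K 3) • ι₀ (A *ᵥ v) + (X 2 : PR K 3) • ι₀ (B *ᵥ v))
    {l : ℕ} {r : Fin k → K[X]} (h : Dg l r) :
    (X 1 : PR K 3) • Hm ι₀ l r = Hm ι₀ (l + 1) (PM A B *ᵥ r) := by
  have e1 : Hm ι₀ (l + 1) (PM A B *ᵥ r) =
      (∑ b ∈ Finset.range (l + 1), ((X 0 : PR K 3) ^ (l + 1 - b) * X 2 ^ b) • ι₀ (A *ᵥ cf r b)) +
      ∑ b ∈ Finset.range (l + 1), ((X 0 : PR K 3) ^ (l - b) * X 2 ^ (b + 1)) •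
        ι₀ (B *ᵥ cf r b) := by
    have e2 : (∑ b ∈ Finset.range (l + 1), ((X 0 : PR K 3) ^ (l + 1 - b) * X 2 ^ b) •
        ι₀ (A *ᵥ cf r b)) = ∑ b ∈ Finset.range (l + 1 + 1),
          ((X 0 : PR K 3) ^ (l + 1 - b) * X 2 ^ b) • ι₀ (A *ᵥ cf r b) := by
      rw [Finset.sum_range_succ _ (l + 1), h (l + 1) (by omega), mulVec_zero, map_zero, smul_zero,
        add_zero]
    rw [e2]
    unfold Hm
    rw [Finset.sum_range_succ' _ (l + 1), Finset.sum_range_succ' _ (l + 1), cf_PM_zero,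
      add_right_comm, ← Finset.sum_add_distrib]
    congr 1
    refine Finset.sum_congr rfl fun b _ => ?_
    rw [cf_PM_succ, map_add, smul_add, Nat.add_sub_add_right]
  rw [e1, ← Finset.sum_add_distrib]
  unfold Hm
  rw [Finset.smul_sum]
  refine Finset.sum_congr rfl fun b hb => ?_
  have hb' : b ≤ l := by
    have := Finset.mem_range.1 hb
    omega
  rw [smul_smul, mul_comm, mul_smul, hY, smul_add, smul_smul, smul_smul,
    show l + 1 - b = (l - b) + 1 by omega, pow_succ, pow_succ]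
  ring_nf

theorem Hm_Yp (ι₀ : (Fin k → K) →ₗ[K] Ω) (A B : Matrix (Fin k) (Fin k) K)
    (hY : ∀ v, (X 1 : PR K 3) • ι₀ v =
      (X 0 : PR K 3) • ι₀ (A *ᵥ v) + (X 2 : PR K 3) • ι₀ (B *ᵥ v))
    (v : Fin k → K) (j : ℕ) :
    (X 1 : PR K 3) ^ j • ι₀ v = Hm ι₀ j ((PM A B) ^ j *ᵥ fun a => Polynomial.C (v a)) ∧
      Dg j ((PM A B) ^ j *ᵥ fun a => Polynomial.C (v a)) := by
  induction j with
  | zero =>
    have e1 : cf (fun a => Polynomial.C (v a)) 0 = v := by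
      funext a
      simp [cf]
    constructor
    · unfold Hm
      rw [pow_zero, zero_add, Finset.sum_range_one, pow_zero (PM A B), one_mulVec, e1]
      simp
    · rw [pow_zero, one_mulVec]
      intro j hj
      funext a
      simp only [cf, Polynomial.coeff_C, Pi.zero_apply]
      rw [if_neg (by omega)]
  | succ j ih =>
    constructor
    · rw [pow_succ', mul_smul, ih.1, Hm_Y ι₀ A B hY ih.2, pow_succ', mulVec_mulVec]
    · rw [pow_succ', ← mulVec_mulVec]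
      exact Dg_PM A B ih.2

/-- The form. -/
noncomputable def th (μ : K[X][X]) : PR K 3 :=
  ∑ j ∈ Finset.range (μ.natDegree + 1), ∑ a ∈ Finset.range (μ.natDegree - j + 1),
    MvPolynomial.C ((μ.coeff j).coeff a) *
      ((X 0 : PR K 3) ^ (μ.natDegree - (j + a)) * X 2 ^ a * X 1 ^ j)

theorem th_hom (μ : K[X][X]) : th μ ∈ fm K 3 μ.natDegree := by
  unfold th
  refine Submodule.sum_mem _ fun j hj => Submodule.sum_mem _ fun a ha => ?_
  have h1 := Finset.mem_range.1 hj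
  have h2 := Finset.mem_range.1 ha
  rw [mem_homogeneousSubmodule]
  have h3 : MvPolynomial.IsHomogeneous (MvPolynomial.C ((μ.coeff j).coeff a) *
      ((X 0 : PR K 3) ^ (μ.natDegree - (j + a)) * X 2 ^ a * X 1 ^ j))
      (0 + (μ.natDegree - (j + a) + a + j)) :=
    (isHomogeneous_C _ _).mul (((isHomogeneous_X_pow 0 _).mul (isHomogeneous_X_pow 2 _)).mul
      (isHomogeneous_X_pow 1 _))
  have h4 : 0 + (μ.natDegree - (j + a) + a + j) = μ.natDegree := by omega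
  rwa [h4] at h3

theorem th_ne (μ : K[X][X]) (h : μ.Monic) : th μ ≠ 0 := by
  intro h0
  have h1 : eval (fun i : Fin 3 => if i = 1 then (1 : K) else 0) (th μ) = 1 := by
    unfold th
    simp only [map_sum, map_mul, map_pow, eval_C, eval_X]
    rw [Finset.sum_eq_single μ.natDegree, Finset.sum_eq_single 0]
    · simp [h.leadingCoeff]
    · intro b _ hb
      simp [hb]
    · simp
    · intro b hb hb'
      have h2 := Finset.mem_range.1 hb
      refine Finset.sum_eq_zero fun a ha => ?_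
      have h3 := Finset.mem_range.1 ha
      by_cases ha0 : a = 0
      · subst ha0
        have h4 : μ.natDegree - b ≠ 0 := by omega
        simp [h4]
      · simp [ha0]
    · simp
  rw [h0, map_zero] at h1
  exact zero_ne_one h1

/-- The action of the form. -/
theorem th_act (ι₀ : (Fin k → K) →ₗ[K] Ω) (A B : Matrix (Fin k) (Fin k) K)
    (hY : ∀ v, (X 1 : PR K 3) • ι₀ v =
      (X 0 : PR K 3) • ι₀ (A *ᵥ v) + (X 2 : PR K 3) • ι₀ (B *ᵥ v)) (μ : K[X][X])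
    (hμ : ∀ j ≤ μ.natDegree, (μ.coeff j).natDegree + j ≤ μ.natDegree) (v : Fin k → K) :
    th μ • ι₀ v = Hm ι₀ μ.natDegree (Polynomial.aeval (PM A B) μ *ᵥ fun a => Polynomial.C (v a)) ∧
      Dg μ.natDegree (Polynomial.aeval (PM A B) μ *ᵥ fun a => Polynomial.C (v a)) := by
  obtain ⟨c, hc⟩ : ∃ c : Fin k → K[X], c = fun a => Polynomial.C (v a) := ⟨_, rfl⟩
  have e1 : Polynomial.aeval (PM A B) μ *ᵥ c = ∑ j ∈ Finset.range (μ.natDegree + 1),
      ∑ a ∈ Finset.range (μ.natDegree - j + 1), Polynomial.C ((μ.coeff j).coeff a) •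
        ((Polynomial.X : K[X]) ^ a • ((PM A B) ^ j *ᵥ c)) := by
    rw [Polynomial.aeval_eq_sum_range, sum_mulVec]
    refine Finset.sum_congr rfl fun j hj => ?_
    have h1 := Finset.mem_range.1 hj
    rw [smul_mulVec, (μ.coeff j).as_sum_range' (μ.natDegree - j + 1)
      (by have := hμ j (by omega); omega), Finset.sum_smul]
    refine Finset.sum_congr rfl fun a _ => ?_
    rw [smul_smul, Polynomial.C_mul_X_pow_eq_monomial, ← (μ.coeff j).as_sum_range'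
      (μ.natDegree - j + 1) (by have := hμ j (by omega); omega)]
  have e2 : ∀ j a, j + a ≤ μ.natDegree →
      ((X 0 : PR K 3) ^ (μ.natDegree - (j + a)) * X 2 ^ a * X 1 ^ j) • ι₀ v =
        Hm ι₀ μ.natDegree ((Polynomial.X : K[X]) ^ a • ((PM A B) ^ j *ᵥ c)) ∧
      Dg μ.natDegree ((Polynomial.X : K[X]) ^ a • ((PM A B) ^ j *ᵥ c)) := by
    intro j a hja
    obtain ⟨h1, h2⟩ := Hm_Yp ι₀ A B hY v j
    rw [← hc] at h1 h2
    obtain ⟨h3, h4⟩ := Hm_Zp ι₀ h2 a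
    obtain ⟨h5, h6⟩ := Hm_Xp ι₀ h4 (μ.natDegree - (j + a))
    rw [Nat.add_sub_cancel' hja] at h5 h6
    exact ⟨by rw [mul_smul, mul_smul, h1, h3, h5], h6⟩
  rw [← hc, e1]
  constructor
  · rw [Hm_sum]
    unfold th
    rw [Finset.sum_smul]
    refine Finset.sum_congr rfl fun j hj => ?_
    have h1 := Finset.mem_range.1 hj
    rw [Hm_sum, Finset.sum_smul]
    refine Finset.sum_congr rfl fun a ha => ?_
    have h2 := Finset.mem_range.1 ha
    rw [Hm_C, mul_smul, (e2 j a (by omega)).1]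
  · intro b hb
    rw [cf_sum]
    refine Finset.sum_eq_zero fun j hj => ?_
    have h1 := Finset.mem_range.1 hj
    rw [cf_sum]
    refine Finset.sum_eq_zero fun a ha => ?_
    have h2 := Finset.mem_range.1 ha
    rw [cf_smul, (e2 j a (by omega)).2 b hb, smul_zero]

/-- Telescoping. -/
theorem Hm_zero (ι₀ : (Fin k → K) →ₗ[K] Ω) (ι₁ : (Fin m → K) →ₗ[K] Ω)
    (x z : Matrix (Fin m) (Fin k) K) (hx : ∀ v : Fin k → K, x *ᵥ v = 0 → v = 0)
    (h0 : ∀ v, (X 0 : PR K 3) • ι₀ v = ι₁ (x *ᵥ v))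
    (h2 : ∀ v, (X 2 : PR K 3) • ι₀ v = ι₁ (z *ᵥ v)) (n : ℕ) {r : Fin k → K[X]} (hr : Dg n r)
    (hQ : r ∈ QQ x z) : Hm ι₀ n r = 0 := by
  obtain ⟨w, hw⟩ := mem_QQ.1 hQ
  have e0 : x *ᵥ cf r 0 = z *ᵥ cf w 0 := by
    rw [← cf_mul, hw, cf_Dm_zero]
  have e1 : ∀ j, x *ᵥ cf r (j + 1) = z *ᵥ cf w (j + 1) - x *ᵥ cf w j := by
    intro j
    rw [← cf_mul, hw, cf_Dm_succ]
  -- the degree of `w`
  obtain ⟨N, hN⟩ := cf_bd w
  have hwn : ∀ i j, N + 1 ≤ i + j → n ≤ j → cf w j = 0 := by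
    intro i
    induction i with
    | zero =>
      intro j hj _
      exact hN j (by omega)
    | succ i ih =>
      intro j hj hnj
      have f1 := ih (j + 1) (by omega) (by omega)
      have f2 := e1 j
      rw [f1, hr (j + 1) (by omega), mulVec_zero, mulVec_zero, zero_sub] at f2
      exact hx _ (neg_eq_zero.1 f2.symm)
  have hwn' : ∀ j, n ≤ j → cf w j = 0 := fun j hj => hwn (N + 1) j (by omega) hj
  obtain ⟨g, hg⟩ : ∃ g : ℕ → Ω, g = fun b => match b with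
      | 0 => 0
      | b + 1 => ((X 0 : PR K 3) ^ (n - (b + 1)) * X 2 ^ (b + 1)) • ι₀ (cf w b) := ⟨_, rfl⟩
  have hg0 : g 0 = 0 := by rw [hg]
  have hg1 : ∀ b, g (b + 1) =
      ((X 0 : PR K 3) ^ (n - (b + 1)) * X 2 ^ (b + 1)) • ι₀ (cf w b) := by
    intro b
    rw [hg]
  have hsum : ∑ b ∈ Finset.range n, ((X 0 : PR K 3) ^ (n - b) * X 2 ^ b) • ι₀ (cf r b) = g n := by
    have f1 : ∀ b ∈ Finset.range n, ((X 0 : PR K 3) ^ (n - b) * X 2 ^ b) • ι₀ (cf r b) =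
        g (b + 1) - g b := by
      intro b hb
      have hb' := Finset.mem_range.1 hb
      obtain ⟨d, hd⟩ : ∃ d, n = b + 1 + d := ⟨n - (b + 1), by omega⟩
      have f2 : ((X 0 : PR K 3) ^ (n - b) * X 2 ^ b) • ι₀ (cf r b) =
          ((X 0 : PR K 3) ^ d * X 2 ^ b) • ι₁ (x *ᵥ cf r b) := by
        rw [← h0, smul_smul]
        congr 1
        rw [show n - b = d + 1 by omega, pow_succ]
        ring
      rw [f2, hg1]
      cases b with
      | zero =>
        rw [e0, ← h2, hg0, sub_zero, smul_smul]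
        congr 1
        rw [show n - (0 + 1) = d by omega]
        ring
      | succ b =>
        rw [e1, map_sub, ← h2, ← h0, hg1, smul_sub, smul_smul, smul_smul]
        congr 2
        · rw [show n - (b + 1 + 1) = d by omega]
          ring
        · rw [show n - (b + 1) = d + 1 by omega]
          ring
    rw [Finset.sum_congr rfl f1, Finset.sum_range_sub, hg0, sub_zero]
  unfold Hm
  rw [Finset.sum_range_succ, hsum]
  cases n with
  | zero =>
    rw [hg0, zero_add]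
    have f1 : cf r 0 = 0 := by
      apply hx
      rw [e0, hwn' 0 le_rfl, mulVec_zero]
    rw [f1, map_zero, smul_zero]
  | succ n =>
    have f1 : cf r (n + 1) = - cf w n := by
      have f2 := e1 n
      rw [hwn' (n + 1) le_rfl, mulVec_zero, zero_sub, ← mulVec_neg] at f2
      have f3 : x *ᵥ (cf r (n + 1) - - cf w n) = 0 := by rw [mulVec_sub, f2, sub_self]
      exact sub_eq_zero.1 (hx _ f3)
    rw [hg1, f1, map_neg, smul_neg, add_neg_cancel]

end

end Pool.EG3.Cf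

namespace Pool.EG3

open MvPolynomial Pool.EGH Pool.EG3.Cf Pool.EG3.Cm

/-- CMF. -/
theorem t_cmf : CMFStmt := by
  intro K _ m k x y z A B μ hPJ hy hμ hdeg hQ
  refine ⟨th μ, th_hom μ, th_ne μ hμ, ?_⟩
  intro Ω _ _ _ _ ι₀ ι₁ h0 h1 h2 v
  have hY : ∀ v, (X 1 : PR K 3) • ι₀ v =
      (X 0 : PR K 3) • ι₀ (A.mulVec v) + (X 2 : PR K 3) • ι₀ (B.mulVec v) := by
    intro v
    rw [h1, h0, h2, ← map_add, hy, Matrix.add_mulVec, Matrix.mulVec_mulVec, Matrix.mulVec_mulVec]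
  obtain ⟨e1, e2⟩ := th_act ι₀ A B hY μ hdeg v
  rw [e1]
  exact Hm_zero ι₀ ι₁ x z (PJ_x hPJ) h0 h2 _ e2 (hQ _)

end Pool.EG3
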