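import Pool.Agent.H45.EG3.S1
import Pool.Agent.H61.EGH.FIN

/-!
# EG3: EXT, an extremal counterexample
-/

set_option autoImplicit false

namespace Pool.EG3

open MvPolynomial Pool.EGH

/-- EXT. -/
theorem t_ext (hANC : ANCStmt) : EXTStmt := by
  intro K _ b c f g h t J hJ hfJ hgJ hhJ hbad
  classical
  obtain ⟨N, hN⟩ : ∃ N, N = Module.finrank K ↥(fm K 3 (t + 1)) := ⟨_, rfl⟩
  have hle : ∀ J' : Ideal (PR K 3), hf J' (t + 1) ≤ N := by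
    intro J'
    rw [hN]
    exact Nat.sub_le _ _
  obtain ⟨Bd, hBd⟩ : ∃ Bd, Bd = (Finset.range (N + 1)).sup (ls b c (t + 1)) := ⟨_, rfl⟩
  have hls : ∀ J' : Ideal (PR K 3), ls b c (t + 1) (hf J' (t + 1)) ≤ Bd := by
    intro J'
    rw [hBd]
    exact Finset.le_sup (f := ls b c (t + 1)) (Finset.mem_range.2 (by have := hle J'; omega))
  obtain ⟨P, hP⟩ : ∃ P : Ideal (PR K 3) → Prop, P = fun J' => Hg J' ∧ f ∈ J' ∧ g ∈ J' ∧ h ∈ J' :=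
    ⟨_, rfl⟩
  obtain ⟨e, he⟩ : ∃ e : Ideal (PR K 3) → ℕ, ∀ J',
      e J' = Bd + hf J' t - ls b c (t + 1) (hf J' (t + 1)) := ⟨_, fun _ => rfl⟩
  have hPJ : P J := by
    rw [hP]
    exact ⟨hJ, hfJ, hgJ, hhJ⟩
  have hex1 : ∃ n, ∃ J', P J' ∧ e J' = n := ⟨e J, J, hPJ, rfl⟩
  obtain ⟨e₀, he₀⟩ : ∃ e₀, e₀ = Nat.find hex1 := ⟨_, rfl⟩
  have hmin : ∀ J', P J' → e₀ ≤ e J' := by
    intro J' hJ'
    rw [he₀]
    exact Nat.find_min' hex1 ⟨J', hJ', rfl⟩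
  have hex2 : ∃ k, ∃ J', P J' ∧ e J' = e₀ ∧ hf J' (t + 1) = k := by
    obtain ⟨J', h1, h2⟩ := Nat.find_spec hex1
    exact ⟨_, J', h1, h2.trans he₀.symm, rfl⟩
  obtain ⟨k₀, hk₀⟩ : ∃ k₀, k₀ = Nat.find hex2 := ⟨_, rfl⟩
  have hmin2 : ∀ J', P J' → e J' = e₀ → k₀ ≤ hf J' (t + 1) := by
    intro J' h1 h2
    rw [hk₀]
    exact Nat.find_min' hex2 ⟨J', h1, h2, rfl⟩
  obtain ⟨J₁, hP₁, he₁, hk₁⟩ := Nat.find_spec hex2
  rw [← hk₀] at hk₁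
  have hP₁' := hP₁
  rw [hP] at hP₁'
  obtain ⟨g1, g2, g3, g4⟩ := hP₁'
  obtain ⟨J₂, h1, h2, h3, h4⟩ := hANC K J₁ t g1
  have hP₂ : P J₂ := by
    rw [hP]
    exact ⟨h1, h2 g2, h2 g3, h2 g4⟩
  have h5 := (t_MON K 3 J₁ J₂ t h2).1
  have f1 := hmin J₂ hP₂
  have f2 := he J₁
  have f3 := he J₂
  have f4 := hls J₁
  have f5 := hls J₂
  have f6 := hmin J hPJ
  have f7 := he J
  have f8 := hls J
  rw [h4] at f3 f5
  refine ⟨J₂, ⟨h1, h2 g2, h2 g3, h2 g4, h3, ?_, ?_, ?_⟩⟩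
  · rw [h4]
    omega
  · intro J' a1 a2 a3 a4
    have hP' : P J' := by
      rw [hP]
      exact ⟨a1, a2, a3, a4⟩
    have b1 := hmin J' hP'
    have b2 := he J'
    have b3 := hls J'
    rw [h4]
    omega
  · intro J' a1 a2 a3 a4 hlt
    have hP' : P J' := by
      rw [hP]
      exact ⟨a1, a2, a3, a4⟩
    have b1 := hmin J' hP'
    have b2 := he J'
    have b3 := hls J'
    have b4 : e J' ≠ e₀ := by
      intro hh
      have := hmin2 J' hP' hh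
      omega
    rw [h4]
    omega

end Pool.EG3
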