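import Pool.Agent.H43.EG3.Adj

/-!
# EG3: KER, surjective multiplications
-/

set_option autoImplicit false

namespace Pool.EG3

open MvPolynomial Pool.EGH Pool.EG3.Aj

/-- KER. -/
theorem t_ker (hEV1 : EV1Stmt) : KERStmt := by
  intro K _ _ J t hJ hsur hne
  have hcol := fun (l : PR K 3) (hl : l ∈ fm K 3 1) => (t_col t_FIN K 3 1 J l hJ hl).1 t
  have hX0 : (X 0 : PR K 3) ∈ fm K 3 1 := isHomogeneous_X K 0
  have hX1 : (X 1 : PR K 3) ∈ fm K 3 1 := isHomogeneous_X K 1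
  have hle : hf J (t + 1) ≤ hf J t := by
    have h1 := hcol (X 0) hX0
    rw [hsur _ hX0 (X_ne_zero 0), zero_add] at h1
    rw [← h1]
    exact (t_MON K 3 J (clI J (X 0)) t fun x hx => J.mul_mem_left _ hx).1
  by_contra hcon
  have heq : hf J (t + 1) = hf J t := by omega
  have := fin_gp J t
  have := fin_gp J (t + 1)
  obtain ⟨α, β, hαβ, v, hv0, hv⟩ := hEV1 K ↥(gp J t) ↥(gp J (t + 1)) (Aj.mll J (X 0) hX0 t)
    (Aj.mll J (X 1) hX1 t) (by rw [gp_dim, gp_dim, heq]) (by rw [gp_dim, ← heq]; exact hne)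
  obtain ⟨l, hl⟩ : ∃ l : PR K 3, l = C α * X 0 + C β * X 1 := ⟨_, rfl⟩
  have hl1 : l ∈ fm K 3 1 := by
    rw [hl, ← smul_eq_C_mul, ← smul_eq_C_mul]
    exact Submodule.add_mem _ (Submodule.smul_mem _ _ hX0) (Submodule.smul_mem _ _ hX1)
  have hl0 : l ≠ 0 := by
    intro h
    rw [h] at hl
    have e0 := congrArg (eval (fun i : Fin 3 => if i = 0 then (1 : K) else 0)) hl
    have e1 := congrArg (eval (fun i : Fin 3 => if i = 1 then (1 : K) else 0)) hl
    simp at e0 e1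
    rcases hαβ with h1 | h1
    · exact h1 e0.symm
    · exact h1 e1.symm
  have h1 := hcol l hl1
  rw [hsur _ hl1 hl0, zero_add] at h1
  have h2 := (t_MON K 3 J (clI J l) t fun x hx => J.mul_mem_left _ hx).2 (by omega)
  obtain ⟨F, hF, hFv⟩ := v.2
  have hFv' : Ideal.Quotient.mk J F = (v : PR K 3 ⧸ J) := hFv
  have h3 : l * F ∈ J := by
    rw [← Ideal.Quotient.eq_zero_iff_mem]
    have h4 := congrArg Subtype.val hv
    simp only [Submodule.coe_add, Submodule.coe_smul, Aj.mll_apply, ZeroMemClass.coe_zero] at h4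
    rw [← hFv'] at h4
    rw [hl, add_mul, map_add, mul_assoc, mul_assoc, ← smul_eq_C_mul, ← smul_eq_C_mul]
    rw [← map_mul, ← map_mul] at h4
    exact h4
  have h4 : F ∈ J := h2 F h3 hF
  apply hv0
  apply Subtype.ext
  rw [← hFv', Ideal.Quotient.eq_zero_iff_mem.2 h4]
  rfl

end Pool.EG3
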