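import Pool.Agent.H43.EG3.Adj

/-!
# EG3: KRP, a line all of whose points are bad
-/

set_option autoImplicit false

namespace Pool.EG3

open MvPolynomial Pool.EGH Pool.EG3.Aj

/-- KRP. -/
theorem t_krp (hWNG : WNGStmt) (hLNI : LNIStmt) : KRPStmt := by
  intro K _ _ J l t hJ hLv hl hl0 hsur hbad
  have hinf : Infinite K := IsAlgClosed.instInfinite
  obtain ⟨y, hy, z, hz, hspan, hpt, -⟩ := hLNI K l hl hl0
  have hcol := (t_col t_FIN K 3 1 J l hJ hl).1 t
  rw [hsur, zero_add] at hcol
  -- the elements killed by `l`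
  obtain ⟨E, hE⟩ : ∃ E, E = im J (clI J l) t := ⟨_, rfl⟩
  have hEle : E ≤ gp J t := by
    rw [hE]
    exact Submodule.map_mono inf_le_right
  have hJc : J ≤ clI J l := fun x hx => J.mul_mem_left _ hx
  have hEd := im_dim hJc t
  rw [← hE] at hEd
  have hlE : ∀ v ∈ E, Ideal.Quotient.mk J l * v = 0 := by
    intro v hv
    rw [hE] at hv
    obtain ⟨F, ⟨hF, -⟩, rfl⟩ := hv
    change Ideal.Quotient.mk J l * Ideal.Quotient.mk J F = 0
    rw [← map_mul]
    exact Ideal.Quotient.eq_zero_iff_mem.2 hF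
  have hfg := fin_gp J t
  have hfg1 := fin_gp J (t + 1)
  have hEf : Module.Finite K ↥E := by
    rw [hE]
    have : Module.Finite K ↥((clI J l).restrictScalars K ⊓ fm K 3 t) :=
      Submodule.finiteDimensional_inf_right _ _
    unfold im
    infer_instance
  -- the pencil
  obtain ⟨S, hS⟩ : ∃ S : ↥E →ₗ[K] ↥(gp J (t + 1)), S = mll J y hy t ∘ₗ Submodule.inclusion hEle :=
    ⟨_, rfl⟩
  obtain ⟨T, hT⟩ : ∃ T : ↥E →ₗ[K] ↥(gp J (t + 1)), T = mll J z hz t ∘ₗ Submodule.inclusion hEle :=
    ⟨_, rfl⟩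
  have hSa : ∀ v : ↥E, (S v : PR K 3 ⧸ J) = Ideal.Quotient.mk J y * v := by
    intro v
    rw [hS]
    rfl
  have hTa : ∀ v : ↥E, (T v : PR K 3 ⧸ J) = Ideal.Quotient.mk J z * v := by
    intro v
    rw [hT]
    rfl
  obtain ⟨E', hE'⟩ := hWNG K ↥E ↥(gp J (t + 1)) S T (by
    intro α β hαβ
    obtain ⟨q, hq, hql, hqyz, -⟩ := hpt α β hαβ
    have h1 := hbad q hq hql
    unfold NPq at h1
    push Not at h1
    obtain ⟨F, hF, hFk, hFJ⟩ := h1
    have hFE : Ideal.Quotient.mk J F ∈ E := by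
      rw [hE]
      exact ⟨F, ⟨hFk l hl hql, hF⟩, rfl⟩
    refine ⟨⟨_, hFE⟩, ?_, ?_⟩
    · intro h
      exact hFJ (Ideal.Quotient.eq_zero_iff_mem.1 (congrArg Subtype.val h))
    · apply Subtype.ext
      simp only [Submodule.coe_add, Submodule.coe_smul, hSa, hTa, ZeroMemClass.coe_zero]
      have h2 : (C α * y + C β * z) * F ∈ J := by
        refine hFk _ ?_ hqyz
        rw [← smul_eq_C_mul, ← smul_eq_C_mul]
        exact Submodule.add_mem _ (Submodule.smul_mem _ _ hy) (Submodule.smul_mem _ _ hz)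
      rw [← Ideal.Quotient.eq_zero_iff_mem, add_mul, map_add, mul_assoc, mul_assoc,
        ← smul_eq_C_mul, ← smul_eq_C_mul] at h2
      rw [← map_mul, ← map_mul]
      exact h2)
  obtain ⟨V, hV⟩ : ∃ V, V = E'.map E.subtype := ⟨_, rfl⟩
  have hVE : V ≤ E := by
    rw [hV]
    exact Submodule.map_subtype_le E E'
  have hVd : Module.finrank K V = Module.finrank K E' := by
    rw [hV]
    exact Submodule.finrank_map_subtype_eq E E'
  -- the product
  have hprod : gp J 1 * V = (E'.map S ⊔ E'.map T).map (gp J (t + 1)).subtype := by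
    apply le_antisymm
    · rw [Submodule.mul_le]
      rintro a ⟨m, hm, rfl⟩ b hb
      rw [hV] at hb
      obtain ⟨e, he, rfl⟩ := hb
      obtain ⟨α, β, γ, hmm⟩ := hspan m hm
      have h1 : Ideal.Quotient.mk J m * (e : PR K 3 ⧸ J) =
          ((β • S e + γ • T e : ↥(gp J (t + 1))) : PR K 3 ⧸ J) := by
        simp only [Submodule.coe_add, Submodule.coe_smul, hSa, hTa]
        have h2 := hlE e e.2
        obtain ⟨F, hF⟩ := Ideal.Quotient.mk_surjective (e : PR K 3 ⧸ J)
        rw [← hF] at h2 ⊢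
        rw [← map_mul] at h2
        rw [← map_mul, ← map_mul, ← map_mul, hmm]
        have h3 : (C α * l + C β * y + C γ * z) * F =
            C α * (l * F) + (β • (y * F) + γ • (z * F)) := by
          rw [smul_eq_C_mul, smul_eq_C_mul]
          ring
        rw [h3, map_add, map_mul, h2, mul_zero, zero_add, map_add]
        rfl
      change Ideal.Quotient.mk J m * (e : PR K 3 ⧸ J) ∈ _
      rw [h1]
      refine ⟨β • S e + γ • T e, ?_, rfl⟩
      exact Submodule.add_mem _
        (Submodule.smul_mem _ _ (Submodule.mem_sup_left (Submodule.mem_map_of_mem he)))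
        (Submodule.smul_mem _ _ (Submodule.mem_sup_right (Submodule.mem_map_of_mem he)))
    · rw [Submodule.map_sup, sup_le_iff]
      constructor
      · rintro _ ⟨_, ⟨e, he, rfl⟩, rfl⟩
        rw [Submodule.subtype_apply, hSa]
        refine Submodule.mul_mem_mul ⟨y, hy, rfl⟩ ?_
        rw [hV]
        exact ⟨e, he, rfl⟩
      · rintro _ ⟨_, ⟨e, he, rfl⟩, rfl⟩
        rw [Submodule.subtype_apply, hTa]
        refine Submodule.mul_mem_mul ⟨z, hz, rfl⟩ ?_
        rw [hV]
        exact ⟨e, he, rfl⟩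
  have hprodd : Module.finrank K ↥(gp J 1 * V) = Module.finrank K ↥(E'.map S ⊔ E'.map T) := by
    rw [hprod]
    exact Submodule.finrank_map_subtype_eq _ _
  obtain ⟨J', h1, h2, h3, h4⟩ := adj hJ (hVE.trans hEle)
  have hr1 : 1 ≤ Module.finrank K ↥(gp J 1 * V) := by
    by_contra hcon
    have h5 : gp J 1 * V = ⊥ := by
      have h6 : Module.Finite K ↥(gp J 1 * V) := by
        rw [hprod]
        infer_instance
      exact Submodule.finrank_eq_zero.1 (by omega)
    have h7 : V = ⊥ := by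
      rw [eq_bot_iff]
      intro v hv
      obtain ⟨F, hF, hFv⟩ := hEle (hVE hv)
      have hFv' : Ideal.Quotient.mk J F = v := hFv
      have h8 : F ∈ J := by
        refine hLv t le_rfl F hF fun m hm => ?_
        rw [← Ideal.Quotient.eq_zero_iff_mem, map_mul, hFv']
        have h9 : Ideal.Quotient.mk J m * v ∈ gp J 1 * V :=
          Submodule.mul_mem_mul ⟨m, hm, rfl⟩ hv
        rw [h5] at h9
        exact h9
      rw [← hFv', Ideal.Quotient.eq_zero_iff_mem.2 h8]
      exact zero_mem _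
    rw [h7, finrank_bot] at hVd
    omega
  have hVE' : Module.finrank K V ≤ Module.finrank K E := Submodule.finrank_mono hVE
  refine ⟨J', Module.finrank K ↥(gp J 1 * V), h1, h2, hr1, ?_, ?_, ?_⟩
  · omega
  · exact h4
  · omega

end Pool.EG3
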