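import Pool.Agent.H43.EG3.Adj

/-!
# EG3: PEL, peeling
-/

set_option autoImplicit false

namespace Pool.EG3

open MvPolynomial Pool.EGH Pool.EG3.Aj

/-- PEL. -/
theorem t_pel : PELStmt := by
  intro K _ J t q F hJ hLv hq hF hFJ hk
  -- a linear form which is one at `q`
  obtain ⟨j, hj⟩ : ∃ j, q j ≠ 0 := by
    by_contra hcon
    push Not at hcon
    exact hq (funext hcon)
  obtain ⟨z, hz⟩ : ∃ z : PR K 3, z = C (q j)⁻¹ * X j := ⟨_, rfl⟩
  have hz1 : z ∈ fm K 3 1 := by
    rw [hz, mem_homogeneousSubmodule]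
    have h1 := (isHomogeneous_C (Fin 3) (q j)⁻¹).mul (isHomogeneous_X K j)
    rwa [zero_add] at h1
  have hzq : eval q z = 1 := by
    rw [hz, map_mul, eval_C, eval_X, inv_mul_cancel₀ hj]
  obtain ⟨v, hv⟩ : ∃ v, v = Ideal.Quotient.mk J F := ⟨_, rfl⟩
  obtain ⟨w, hw⟩ : ∃ w, w = Ideal.Quotient.mk J (z * F) := ⟨_, rfl⟩
  have hv0 : v ≠ 0 := by
    rw [hv]
    intro h
    exact hFJ (Ideal.Quotient.eq_zero_iff_mem.1 h)
  have hdec : ∀ m ∈ fm K 3 1, Ideal.Quotient.mk J m * v = eval q m • w := by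
    intro m hm
    have h1 : m - C (eval q m) * z ∈ fm K 3 1 := by
      refine Submodule.sub_mem _ hm ?_
      rw [← smul_eq_C_mul]
      exact Submodule.smul_mem _ _ hz1
    have h2 := hk _ h1 (by rw [map_sub, map_mul, eval_C, hzq, mul_one, sub_self])
    rw [hv, ← map_mul, hw]
    have h3 : Ideal.Quotient.mk J (m * F) = Ideal.Quotient.mk J (C (eval q m) * (z * F)) := by
      rw [Ideal.Quotient.eq]
      have h4 : m * F - C (eval q m) * (z * F) = (m - C (eval q m) * z) * F := by ring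
      rw [h4]
      exact h2
    rw [h3, ← smul_eq_C_mul]
    rfl
  have hw0 : w ≠ 0 := by
    intro h
    apply hFJ
    refine hLv t le_rfl F hF fun l hl => ?_
    have h1 := hdec l hl
    rw [h, smul_zero, hv, ← map_mul] at h1
    exact Ideal.Quotient.eq_zero_iff_mem.1 h1
  have hV : (K ∙ v) ≤ gp J t := by
    rw [Submodule.span_singleton_le_iff_mem, hv]
    exact ⟨F, hF, rfl⟩
  obtain ⟨J', h1, h2, h3, h4⟩ := adj hJ hV
  refine ⟨J', h1, h2, ?_, ?_⟩
  · have h5 : gp J 1 * (K ∙ v) = K ∙ w := by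
      apply le_antisymm
      · rw [Submodule.mul_le]
        rintro a ⟨m, hm, rfl⟩ b hb
        obtain ⟨c, rfl⟩ := Submodule.mem_span_singleton.1 hb
        rw [mul_smul_comm]
        refine Submodule.smul_mem _ _ ?_
        have h6 := hdec m hm
        change Ideal.Quotient.mk J m * v ∈ _
        rw [h6]
        exact Submodule.smul_mem _ _ (Submodule.mem_span_singleton_self w)
      · rw [Submodule.span_singleton_le_iff_mem]
        have h6 := hdec z hz1
        rw [hzq, one_smul] at h6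
        rw [← h6]
        exact Submodule.mul_mem_mul ⟨z, hz1, rfl⟩ (Submodule.mem_span_singleton_self v)
    rw [h5, finrank_span_singleton hw0] at h4
    exact h4
  · rw [finrank_span_singleton hv0] at h3
    exact h3

end Pool.EG3
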